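import Pool.Agent.KReg.Weights

/-!
Polynomial `k`-regular maps `ℂ^n → ℂ^N` for `k ≤ 5` and `N ≥ n (k - 1) + 1`.
-/

namespace Pool.Agent.KReg

open Finset

/-- `k`-regular maps `ℂ^n → ℂ^N`. -/
def IsKRegular (k n N : ℕ) (f : (Fin n → ℂ) → (Fin N → ℂ)) : Prop :=
  Continuous f ∧ ∀ x : Fin k → (Fin n → ℂ), Function.Injective x →
    LinearIndependent ℂ (fun i => f (x i))

/-- Polynomial maps `ℂ^n → ℂ^N`. -/
def IsPolynomialMap (n N : ℕ) (f : (Fin n → ℂ) → (Fin N → ℂ)) : Prop :=
  ∃ P : Fin N → MvPolynomial (Fin n) ℂ, ∀ x j, f x j = MvPolynomial.eval x (P j)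

/-- From polynomials without nonzero dependencies to a `k`-regular map. -/
theorem exists_of_key (k n N : ℕ) {κ : Type} [Fintype κ] (P : κ → MvPolynomial (Fin n) ℂ)
    (hN : Fintype.card κ ≤ N)
    (key : ∀ (ι : Type) [Fintype ι] [Nonempty ι] (x : ι → Fin n → ℂ) (a : ι → ℂ),
      Function.Injective x → Fintype.card ι ≤ k → (∀ i, a i ≠ 0) →
      (∀ j, ∑ i, a i * MvPolynomial.eval (x i) (P j) = 0) → False) :
    ∃ f, IsPolynomialMap n N f ∧ IsKRegular k n N f := by
  classical
  obtain ⟨e⟩ : Nonempty (κ ↪ Fin N) := by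
    apply Function.Embedding.nonempty_of_card_le
    simpa using hN
  let Q : Fin N → MvPolynomial (Fin n) ℂ := Function.extend e P 0
  have hQ : ∀ j, Q (e j) = P j := fun j => e.injective.extend_apply P 0 j
  refine ⟨fun x j => MvPolynomial.eval x (Q j), ⟨Q, fun x j => rfl⟩, ?_, ?_⟩
  · exact continuous_pi fun j => MvPolynomial.continuous_eval (Q j)
  · intro x hx
    rw [Fintype.linearIndependent_iff]
    intro c hc
    by_contra hne
    push Not at hne
    obtain ⟨i0, hi0⟩ := hne
    have : Nonempty {i // c i ≠ 0} := ⟨⟨i0, hi0⟩⟩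
    refine key {i // c i ≠ 0} (fun i => x i.1) (fun i => c i.1)
      (fun i j h => Subtype.ext (hx h)) ?_ (fun i => i.2) ?_
    · exact (Fintype.card_subtype_le _).trans (by simp)
    · intro j
      have h1 := congrFun hc (e j)
      simp only [Finset.sum_apply, Pi.smul_apply, smul_eq_mul, Pi.zero_apply, hQ] at h1
      rw [← Finset.sum_subtype (Finset.univ.filter fun i => c i ≠ 0) (by simp)
        (fun i => c i * MvPolynomial.eval (x i) (P j))]
      refine (Finset.sum_subset (Finset.filter_subset _ _) ?_).trans h1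
      intro i _ hi
      have : c i = 0 := by
        by_contra h
        exact hi (Finset.mem_filter.mpr ⟨Finset.mem_univ i, h⟩)
      rw [this, zero_mul]

/-- The variable `x_c`, or `0` when `c ≥ n`. -/
noncomputable def V (n c : ℕ) : MvPolynomial (Fin n) ℂ :=
  if h : c < n then MvPolynomial.X ⟨c, h⟩ else 0

/-- The value of the coordinate `c`, or `0` when `c ≥ n`. -/
def ext {n : ℕ} {ι : Type} (x : ι → Fin n → ℂ) (c : ℕ) (i : ι) : ℂ :=
  if h : c < n then x i ⟨c, h⟩ else 0

theorem eval_V {n : ℕ} {ι : Type} (x : ι → Fin n → ℂ) (c : ℕ) (i : ι) :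
    MvPolynomial.eval (x i) (V n c) = ext x c i := by
  unfold V ext
  split_ifs with h
  · simp
  · simp

theorem ext_zero {n : ℕ} {ι : Type} (x : ι → Fin n → ℂ) (c : ℕ) (hc : n ≤ c) (i : ι) :
    ext x c i = 0 := by
  unfold ext
  rw [dif_neg (by omega)]

theorem ext_sep {n : ℕ} {ι : Type} (x : ι → Fin n → ℂ) (hx : Function.Injective x) (i j : ι)
    (h : ∀ c, ext x c i = ext x c j) : i = j := by
  apply hx
  funext c
  have := h c
  simpa [ext] using this

theorem ext_fin {n : ℕ} {ι : Type} (x : ι → Fin n → ℂ) (c : Fin n) (i : ι) :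
    ext x c i = x i c := by
  simp [ext]

section keys

variable {n : ℕ} {ι : Type} [Fintype ι] (x : ι → Fin n → ℂ) (a : ι → ℂ)

theorem sum_ext_pow (p : ℕ) (hp : p ≠ 0) (h : ∀ c : Fin n, ∑ i, a i * x i c ^ p = 0) (c : ℕ) :
    ∑ i, a i * ext x c i ^ p = 0 := by
  rcases lt_or_ge c n with hc | hc
  · have := h ⟨c, hc⟩
    rw [← this]
    exact Finset.sum_congr rfl fun i _ => by rw [show ext x c i = x i ⟨c, hc⟩ from dif_pos hc]
  · apply Finset.sum_eq_zero
    intro i _
    rw [ext_zero x c hc, zero_pow hp, mul_zero]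

end keys

/-! ### the polynomial families -/

/-- `1` and the variables -/
noncomputable def P2 (n : ℕ) : Option (Fin n) → MvPolynomial (Fin n) ℂ
  | none => 1
  | some c => V n c

/-- `1`, the variables and their squares -/
noncomputable def P3 (n : ℕ) : Option (Fin n ⊕ Fin n) → MvPolynomial (Fin n) ℂ
  | none => 1
  | some (Sum.inl c) => V n c
  | some (Sum.inr c) => V n c ^ 2

/-- the family for `k = 4` -/
noncomputable def P4 (n : ℕ) : Option (Fin n ⊕ Option (Fin (2 * n - 1))) →
    MvPolynomial (Fin n) ℂ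
  | none => 1
  | some (Sum.inl c) => V n c
  | some (Sum.inr none) => V n 0 ^ 3
  | some (Sum.inr (some m)) => V n (m + 1) ^ 3
      + ∑ p ∈ Finset.HasAntidiagonal.antidiagonal (m : ℕ), V n p.1 * V n p.2

/-- the family for `k = 5` -/
noncomputable def P5 (n : ℕ) : Option (Fin n ⊕ (Fin n ⊕ Option (Option (Fin (2 * n - 2))))) →
    MvPolynomial (Fin n) ℂ
  | none => 1
  | some (Sum.inl c) => V n c
  | some (Sum.inr (Sum.inl c)) => V n c ^ 2
  | some (Sum.inr (Sum.inr none)) => V n 0 ^ 4
  | some (Sum.inr (Sum.inr (some none))) => V n 1 ^ 4 + V n 0 ^ 3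
  | some (Sum.inr (Sum.inr (some (some m)))) => V n (m + 2) ^ 4 + V n (m + 1) ^ 3
      + ∑ p ∈ (Finset.HasAntidiagonal.antidiagonal (m : ℕ)).filter (fun p => p.1 < p.2),
        V n p.1 * V n p.2

theorem exists_two (n N : ℕ) (hN : n + 1 ≤ N) :
    ∃ f, IsPolynomialMap n N f ∧ IsKRegular 2 n N f := by
  apply exists_of_key 2 n N (P2 n) (by simpa using hN)
  intro ι _ _ x a hx hcard ha h
  refine two_points a (ext x) ha (ext_sep x hx) hcard ?_ ?_
  · simpa [P2] using h none
  · intro c
    have := sum_ext_pow x a 1 one_ne_zero (fun c => by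
      simpa [P2, eval_V, ext_fin] using h (some c)) c
    simpa using this

theorem exists_three (n N : ℕ) (hN : 2 * n + 1 ≤ N) :
    ∃ f, IsPolynomialMap n N f ∧ IsKRegular 3 n N f := by
  apply exists_of_key 3 n N (P3 n) (by simp; omega)
  intro ι _ _ x a hx hcard ha h
  refine three_points a (ext x) ha (ext_sep x hx) hcard ?_ ?_ ?_
  · simpa [P3] using h none
  · intro c
    have := sum_ext_pow x a 1 one_ne_zero (fun c => by
      simpa [P3, eval_V, ext_fin] using h (some (Sum.inl c))) c
    simpa using this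
  · intro c
    exact sum_ext_pow x a 2 two_ne_zero (fun c => by
      simpa [P3, eval_V, ext_fin] using h (some (Sum.inr c))) c

theorem exists_four (n N : ℕ) (hn : 1 ≤ n) (hN : 3 * n + 1 ≤ N) :
    ∃ f, IsPolynomialMap n N f ∧ IsKRegular 4 n N f := by
  apply exists_of_key 4 n N (P4 n) (by simp; omega)
  intro ι _ _ x a hx hcard ha h
  refine four_points a (ext x) n (fun c hc i => ext_zero x c hc i) ha (ext_sep x hx) hcard
    ?_ ?_ ?_ ?_
  · simpa [P4] using h none
  · intro c
    have := sum_ext_pow x a 1 one_ne_zero (fun c => by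
      simpa [P4, eval_V, ext_fin] using h (some (Sum.inl c))) c
    simpa using this
  · simpa [P4, eval_V] using h (some (Sum.inr none))
  · intro m
    rcases lt_or_ge m (2 * n - 1) with hm | hm
    · have := h (some (Sum.inr (some ⟨m, hm⟩)))
      simp only [P4, map_add, map_pow, map_sum, map_mul, eval_V] at this
      rw [← this]
      simp only [mul_add, Finset.sum_add_distrib, mom]
      congr 1
      rw [Finset.sum_comm]
      apply Finset.sum_congr rfl
      intro i _
      rw [Finset.mul_sum]
      exact Finset.sum_congr rfl fun p _ => by ring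
    · rw [Finset.sum_eq_zero, Finset.sum_eq_zero, add_zero]
      · rintro ⟨p, q⟩ hp
        rw [Finset.HasAntidiagonal.mem_antidiagonal] at hp
        simp only at hp
        unfold mom
        apply Finset.sum_eq_zero
        intro i _
        rcases le_total p q with hpq | hpq
        · simp only [ext_zero x q (by omega), mul_zero]
        · simp only [ext_zero x p (by omega), mul_zero, zero_mul]
      · intro i _
        rw [ext_zero x (m + 1) (by omega)]
        ring

theorem exists_five (n N : ℕ) (hn : 1 ≤ n) (hN : 4 * n + 1 ≤ N) :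
    ∃ f, IsPolynomialMap n N f ∧ IsKRegular 5 n N f := by
  apply exists_of_key 5 n N (P5 n) (by simp; omega)
  intro ι _ _ x a hx hcard ha h
  refine five_points a (ext x) n (fun c hc i => ext_zero x c hc i) ha (ext_sep x hx) hcard
    ?_ ?_ ?_ ?_ ?_ ?_
  · simpa [P5] using h none
  · intro c
    have := sum_ext_pow x a 1 one_ne_zero (fun c => by
      simpa [P5, eval_V, ext_fin] using h (some (Sum.inl c))) c
    simpa using this
  · intro c
    have := sum_ext_pow x a 2 two_ne_zero (fun c => by
      simpa [P5, eval_V, ext_fin] using h (some (Sum.inr (Sum.inl c)))) c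
    rw [mom, ← this]
    exact Finset.sum_congr rfl fun i _ => by ring
  · simpa [P5, eval_V] using h (some (Sum.inr (Sum.inr none)))
  · have := h (some (Sum.inr (Sum.inr (some none))))
    simp only [P5, map_add, map_pow, eval_V] at this
    rw [← this]
    simp only [mul_add, Finset.sum_add_distrib]
  · intro m
    rcases lt_or_ge m (2 * n - 2) with hm | hm
    · have := h (some (Sum.inr (Sum.inr (some (some ⟨m, hm⟩)))))
      simp only [P5, map_add, map_pow, map_sum, map_mul, eval_V] at this
      rw [← this]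
      simp only [mul_add, Finset.sum_add_distrib, mom]
      congr 1
      rw [Finset.sum_comm]
      apply Finset.sum_congr rfl
      intro i _
      rw [Finset.mul_sum]
      exact Finset.sum_congr rfl fun p _ => by ring
    · have hz : ∀ c, n ≤ c → ∀ p, p ≠ 0 → ∑ i, a i * ext x c i ^ p = 0 := by
        intro c hc p hp
        apply Finset.sum_eq_zero
        intro i _
        rw [ext_zero x c hc, zero_pow hp, mul_zero]
      rw [hz (m + 2) (by omega) 4 (by norm_num), hz (m + 1) (by omega) 3 (by norm_num),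
        zero_add, zero_add]
      apply Finset.sum_eq_zero
      rintro ⟨p, q⟩ hp
      rw [Finset.mem_filter, Finset.HasAntidiagonal.mem_antidiagonal] at hp
      simp only at hp
      unfold mom
      apply Finset.sum_eq_zero
      intro i _
      simp only [ext_zero x q (by omega), mul_zero]

theorem exists_one (n N : ℕ) (hN : 1 ≤ N) :
    ∃ f, IsPolynomialMap n N f ∧ IsKRegular 1 n N f := by
  apply exists_of_key 1 n N (fun _ : Unit => 1) (by simpa using hN)
  intro ι _ _ x a hx hcard ha h
  have h0 := h ()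
  simp only [map_one, mul_one] at h0
  have hsub : Subsingleton ι := Fintype.card_le_one_iff_subsingleton.mp hcard
  let i0 : ι := Classical.arbitrary ι
  rw [Finset.sum_eq_single i0 (fun i _ hi => absurd (Subsingleton.elim i i0) hi)
    (fun h => absurd (Finset.mem_univ _) h)] at h0
  exact ha i0 h0

end Pool.Agent.KReg
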