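import Mathlib

/-!
Linear algebra of a weight vector `a` on a finite set `ι` and of coordinate functions `X c`.
-/

namespace Pool.Agent.KReg

open Finset

variable {ι : Type*} [Fintype ι]

/-- Two orthogonal (for the weighted pairing) independent families are small. -/
theorem card_add_card_le {P Q : Type*} [Fintype P] [Fintype Q]
    (a : ι → ℂ) (ha : ∀ i, a i ≠ 0) (g : P → ι → ℂ) (h : Q → ι → ℂ)
    (hg : LinearIndependent ℂ g) (hh : LinearIndependent ℂ h)
    (horth : ∀ p q, ∑ i, a i * g p i * h q i = 0) :
    Fintype.card P + Fintype.card Q ≤ Fintype.card ι := by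
  classical
  let A : Matrix P ι ℂ := Matrix.of g
  let B : Matrix Q ι ℂ := Matrix.of fun q i => a i * h q i
  have hA : A.rank = Fintype.card P := LinearIndependent.rank_matrix (M := A) hg
  have hBli : LinearIndependent ℂ B.row := by
    rw [Fintype.linearIndependent_iff] at hh ⊢
    intro c hc
    apply hh c
    funext i
    have h1 := congrFun hc i
    simp only [B, Finset.sum_apply, Pi.smul_apply, smul_eq_mul, Matrix.row_apply, Matrix.of_apply,
      Pi.zero_apply] at h1 ⊢
    have h2 : a i * ∑ q, c q * h q i = 0 := by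
      rw [← h1, Finset.mul_sum]
      exact Finset.sum_congr rfl fun q _ => by ring
    exact (mul_eq_zero.mp h2).resolve_left (ha i)
  have hB : B.rank = Fintype.card Q := LinearIndependent.rank_matrix (M := B) hBli
  have hAB : A * B.transpose = 0 := by
    ext p q
    simp only [A, B, Matrix.mul_apply, Matrix.of_apply, Matrix.transpose_apply, Matrix.zero_apply]
    rw [← horth p q]
    exact Finset.sum_congr rfl fun i _ => by ring
  have := Matrix.rank_add_rank_le_card_of_mul_eq_zero hAB
  rwa [Matrix.rank_transpose, hA, hB] at this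

/-- The weighted moment of degree two. -/
def mom (a : ι → ℂ) (X : ℕ → ι → ℂ) (c d : ℕ) : ℂ := ∑ i, a i * X c i * X d i

theorem mom_comm (a : ι → ℂ) (X : ℕ → ι → ℂ) (c d : ℕ) : mom a X c d = mom a X d c :=
  Finset.sum_congr rfl fun i _ => by ring

/-- The constant function together with `X e` and the `X c`, `c ∈ T`. -/
def fam (X : ℕ → ι → ℂ) (e : ℕ) (T : Finset ℕ) : Option (Option T) → ι → ℂ
  | none => fun _ => 1
  | some none => X e
  | some (some c) => X c

/-- The constant function together with the `X c`, `c ∈ T`. -/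
def fam' (X : ℕ → ι → ℂ) (T : Finset ℕ) : Option T → ι → ℂ
  | none => fun _ => 1
  | some c => X c

section

variable (a : ι → ℂ) (X : ℕ → ι → ℂ)

/-- coefficients of a top antidiagonal relation vanish. -/
theorem coeff_zero (hX : ∀ c, ∑ i, a i * X c i = 0)
    (m : ℕ) (T : Finset ℕ) (hT : ∀ c ∈ T, c ≤ m ∧ mom a X c (m - c) ≠ 0)
    (htop : ∀ c d, m < c + d → mom a X c d = 0)
    (e : ℕ) (α β : ℂ) (γ : ℕ → ℂ) (he : ∀ d, β * mom a X e d = 0)
    (hrel : ∀ i, α + β * X e i + ∑ c ∈ T, γ c * X c i = 0) :
    ∀ c ∈ T, γ c = 0 := by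
  classical
  by_contra hne
  push Not at hne
  have hS : (T.filter fun c => γ c ≠ 0).Nonempty := by
    obtain ⟨c, hc, hc'⟩ := hne
    exact ⟨c, Finset.mem_filter.mpr ⟨hc, hc'⟩⟩
  set c0 := (T.filter fun c => γ c ≠ 0).min' hS with hc0
  have hc0mem := Finset.min'_mem _ hS
  rw [← hc0, Finset.mem_filter] at hc0mem
  obtain ⟨hc0T, hc0γ⟩ := hc0mem
  have key : ∑ c ∈ T, γ c * mom a X c (m - c0) = 0 := by
    have h2 : ∑ i, (a i * X (m - c0) i) * (α + β * X e i + ∑ c ∈ T, γ c * X c i) = 0 := by
      apply Finset.sum_eq_zero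
      intro i _
      rw [hrel i, mul_zero]
    have h3 : ∑ i, (a i * X (m - c0) i) * (α + β * X e i + ∑ c ∈ T, γ c * X c i)
        = α * (∑ i, a i * X (m - c0) i) + β * mom a X e (m - c0)
          + ∑ c ∈ T, γ c * mom a X c (m - c0) := by
      unfold mom
      simp only [Finset.mul_sum]
      rw [Finset.sum_comm (s := T), ← Finset.sum_add_distrib, ← Finset.sum_add_distrib]
      apply Finset.sum_congr rfl
      intro i _
      rw [mul_add, mul_add, Finset.mul_sum]
      congr 1
      · ring
      · exact Finset.sum_congr rfl fun c _ => by ring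
    rw [h3, hX, he] at h2
    simpa using h2
  rw [Finset.sum_eq_single c0] at key
  · exact (mul_ne_zero hc0γ (hT c0 hc0T).2) key
  · intro c hc hcc
    rcases lt_or_gt_of_ne hcc with hlt | hgt
    · -- c < c0, so γ c = 0
      have : γ c = 0 := by
        by_contra hγ
        have := Finset.min'_le (T.filter fun c => γ c ≠ 0) c (Finset.mem_filter.mpr ⟨hc, hγ⟩)
        omega
      rw [this, zero_mul]
    · have := (hT c0 hc0T).1
      rw [htop c (m - c0) (by omega), mul_zero]
  · intro h
    exact absurd hc0T h

theorem fam_indep (hX : ∀ c, ∑ i, a i * X c i = 0)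
    (m : ℕ) (T : Finset ℕ) (hT : ∀ c ∈ T, c ≤ m ∧ mom a X c (m - c) ≠ 0)
    (htop : ∀ c d, m < c + d → mom a X c d = 0)
    (e : ℕ) (he : ∀ d, mom a X e d = 0) (hne : ∃ i j, X e i ≠ X e j) :
    LinearIndependent ℂ (fam X e T) := by
  classical
  rw [Fintype.linearIndependent_iff]
  intro c hc
  let γ : ℕ → ℂ := fun n => if h : n ∈ T then c (some (some ⟨n, h⟩)) else 0
  have hγ : ∀ t : T, γ t = c (some (some t)) := fun t => by
    simp [γ, t.2]
  have hrel : ∀ i, c none + c (some none) * X e i + ∑ n ∈ T, γ n * X n i = 0 := by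
    intro i
    have h2 := congrFun hc i
    rw [Fintype.sum_option, Fintype.sum_option] at h2
    simp only [Pi.add_apply, Pi.smul_apply, smul_eq_mul, fam, mul_one, Finset.sum_apply,
      Pi.zero_apply] at h2
    rw [← Finset.sum_coe_sort T (fun n => γ n * X n i)]
    simp only [hγ]
    rw [← h2]
    ring
  have hz := coeff_zero a X hX m T hT htop e (c none) (c (some none)) γ
    (fun d => by rw [he d, mul_zero]) hrel
  have hrel' : ∀ i, c none + c (some none) * X e i = 0 := by
    intro i
    have := hrel i
    rwa [Finset.sum_eq_zero (fun n hn => by rw [hz n hn, zero_mul]), add_zero] at this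
  obtain ⟨i, j, hij⟩ := hne
  have hb : c (some none) = 0 := by
    have h3 : c (some none) * (X e i - X e j) = 0 := by
      linear_combination hrel' i - hrel' j
    exact (mul_eq_zero.mp h3).resolve_right (sub_ne_zero.mpr hij)
  have ha0 : c none = 0 := by
    have := hrel' i
    rwa [hb, zero_mul, add_zero] at this
  rintro (_ | _ | t)
  · exact ha0
  · exact hb
  · rw [← hγ t]; exact hz t t.2

theorem fam'_indep [Nonempty ι] (hX : ∀ c, ∑ i, a i * X c i = 0)
    (m : ℕ) (T : Finset ℕ) (hT : ∀ c ∈ T, c ≤ m ∧ mom a X c (m - c) ≠ 0)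
    (htop : ∀ c d, m < c + d → mom a X c d = 0) :
    LinearIndependent ℂ (fam' X T) := by
  classical
  rw [Fintype.linearIndependent_iff]
  intro c hc
  let γ : ℕ → ℂ := fun n => if h : n ∈ T then c (some ⟨n, h⟩) else 0
  have hγ : ∀ t : T, γ t = c (some t) := fun t => by
    simp [γ, t.2]
  have hrel : ∀ i, c none + 0 * X 0 i + ∑ n ∈ T, γ n * X n i = 0 := by
    intro i
    have h2 := congrFun hc i
    rw [Fintype.sum_option] at h2
    simp only [Pi.add_apply, Pi.smul_apply, smul_eq_mul, fam', mul_one, Finset.sum_apply,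
      Pi.zero_apply] at h2
    rw [← Finset.sum_coe_sort T (fun n => γ n * X n i)]
    simp only [hγ]
    linear_combination h2
  have hz := coeff_zero a X hX m T hT htop 0 (c none) 0 γ
    (fun d => by rw [zero_mul]) hrel
  have hrel' : ∀ i : ι, c none = 0 := by
    intro i
    have := hrel i
    rwa [Finset.sum_eq_zero (fun n hn => by rw [hz n hn, zero_mul]), add_zero, zero_mul,
      add_zero] at this
  rintro (_ | t)
  · exact hrel' (Classical.arbitrary ι)
  · rw [← hγ t]; exact hz t t.2

/-- The number of nonzero entries on the top antidiagonal is small. -/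
theorem card_T_le [Nonempty ι] (ha : ∀ i, a i ≠ 0)
    (h1 : ∑ i, a i = 0) (hX : ∀ c, ∑ i, a i * X c i = 0)
    (m : ℕ) (T : Finset ℕ) (hT : ∀ c ∈ T, c ≤ m ∧ mom a X c (m - c) ≠ 0)
    (htop : ∀ c d, m < c + d → mom a X c d = 0) :
    T.card + 2 ≤ Fintype.card ι := by
  classical
  have hh : LinearIndependent ℂ (fun (_ : Unit) (_ : ι) => (1 : ℂ)) := by
    rw [Fintype.linearIndependent_iff]
    intro c hc u
    have := congrFun hc (Classical.arbitrary ι)
    simpa using this
  have := card_add_card_le a ha (fam' X T) (fun (_ : Unit) (_ : ι) => (1 : ℂ))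
    (fam'_indep a X hX m T hT htop) hh (by
      rintro (_ | c) _
      · simpa [fam'] using h1
      · simpa [fam'] using hX c)
  simp at this
  omega

/-- A coordinate whose row of moments vanishes is constant. -/
theorem const_of_row (ha : ∀ i, a i ≠ 0)
    (h1 : ∑ i, a i = 0) (hX : ∀ c, ∑ i, a i * X c i = 0)
    (m : ℕ) (T : Finset ℕ) (hT : ∀ c ∈ T, c ≤ m ∧ mom a X c (m - c) ≠ 0)
    (htop : ∀ c d, m < c + d → mom a X c d = 0)
    (hcard : Fintype.card ι < T.card + 4)
    (e : ℕ) (he : ∀ d, mom a X e d = 0) (i j : ι) : X e i = X e j := by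
  classical
  by_contra hij
  have hh : LinearIndependent ℂ (fun (b : Bool) => if b then X e else fun _ => (1 : ℂ)) := by
    rw [Fintype.linearIndependent_iff]
    intro c hc
    have hi := congrFun hc i
    have hj := congrFun hc j
    simp only [Fintype.sum_bool, Pi.add_apply, Pi.smul_apply, smul_eq_mul, Pi.zero_apply,
      if_true, Bool.false_eq_true, if_false, mul_one] at hi hj
    have hb : c true = 0 := by
      have h3 : c true * (X e i - X e j) = 0 := by linear_combination hi - hj
      exact (mul_eq_zero.mp h3).resolve_right (sub_ne_zero.mpr hij)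
    rintro (_ | _)
    · rw [hb] at hi; simpa using hi
    · exact hb
  have := card_add_card_le a ha (fam X e T) _
    (fam_indep a X hX m T hT htop e he ⟨i, j, hij⟩) hh (by
      rintro (_ | _ | c) (_ | _)
      · simpa [fam] using h1
      · simpa [fam] using hX e
      · simpa [fam] using hX e
      · simpa [fam, mom] using he e
      · simpa [fam] using hX c
      · have := he c
        rw [mom_comm] at this
        simpa [fam, mom] using this)
  simp at this
  omega

end

end Pool.Agent.KReg
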