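import Pool.Agent.KReg.Core

/-!
The weight vector of a hypothetical dependency: the cases of at most 2, 3, 4, 5 points.
-/

namespace Pool.Agent.KReg

open Finset

variable {ι : Type*} [Fintype ι]

/-- Vandermonde: weights that kill the powers `t ^ p`, `p < card ι`, are zero. -/
theorem vandermonde (a : ι → ℂ) (t : ι → ℂ) (ht : Function.Injective t) (r : ℕ)
    (hr : Fintype.card ι ≤ r) (h : ∀ p < r, ∑ i, a i * t i ^ p = 0) : ∀ i, a i = 0 := by
  classical
  intro i0
  let q : Polynomial ℂ := ∏ i ∈ Finset.univ.erase i0, (Polynomial.X - Polynomial.C (t i))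
  have hdeg : q.natDegree < r := by
    have h1 : q.natDegree = (Finset.univ.erase i0).card := by
      simp [q, Polynomial.natDegree_prod_of_monic _ _ (fun i _ => Polynomial.monic_X_sub_C (t i))]
    rw [h1, Finset.card_erase_of_mem (Finset.mem_univ _), Finset.card_univ]
    have : 0 < Fintype.card ι := Fintype.card_pos_iff.mpr ⟨i0⟩
    omega
  have h2 : ∑ i, a i * q.eval (t i) = 0 := by
    have h3 : ∀ i, a i * q.eval (t i) = ∑ p ∈ Finset.range r, q.coeff p * (a i * t i ^ p) := by
      intro i
      rw [Polynomial.eval_eq_sum_range' hdeg, Finset.mul_sum]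
      exact Finset.sum_congr rfl fun p _ => by ring
    simp only [h3]
    rw [Finset.sum_comm]
    apply Finset.sum_eq_zero
    intro p hp
    rw [← Finset.mul_sum, h p (Finset.mem_range.mp hp), mul_zero]
  rw [Finset.sum_eq_single i0] at h2
  · refine (mul_eq_zero.mp h2).resolve_right ?_
    simp only [q, Polynomial.eval_prod, Polynomial.eval_sub, Polynomial.eval_X, Polynomial.eval_C]
    intro hz
    obtain ⟨i, hi, hi'⟩ := Finset.prod_eq_zero_iff.mp hz
    exact Finset.ne_of_mem_erase hi (ht (sub_eq_zero.mp hi')).symm
  · intro i _ hi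
    have : q.eval (t i) = 0 := by
      simp only [q, Polynomial.eval_prod, Polynomial.eval_sub, Polynomial.eval_X,
        Polynomial.eval_C]
      exact Finset.prod_eq_zero (Finset.mem_erase.mpr ⟨hi, Finset.mem_univ i⟩) (by simp)
    rw [this, mul_zero]
  · intro h; exact absurd (Finset.mem_univ _) h

section

variable (a : ι → ℂ) (X : ℕ → ι → ℂ)

omit [Fintype ι] in
/-- independence of `1` and a nonconstant function -/
theorem pair_indep (e : ℕ) (i j : ι) (hij : X e i ≠ X e j) :
    LinearIndependent ℂ (fun (b : Bool) => if b then X e else fun _ => (1 : ℂ)) := by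
  rw [Fintype.linearIndependent_iff]
  intro c hc
  have hi := congrFun hc i
  have hj := congrFun hc j
  simp only [Fintype.sum_bool, Pi.add_apply, Pi.smul_apply, smul_eq_mul, Pi.zero_apply,
    if_true, Bool.false_eq_true, if_false, mul_one] at hi hj
  have hb : c true = 0 := by
    have h3 : c true * (X e i - X e j) = 0 := by linear_combination hi - hj
    exact (mul_eq_zero.mp h3).resolve_right (sub_ne_zero.mpr hij)
  rintro (_ | _)
  · rw [hb] at hi; simpa using hi
  · exact hb

/-- there are two points and a coordinate that separates them -/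
theorem exists_nonconst [Nonempty ι] (ha : ∀ i, a i ≠ 0)
    (hsep : ∀ i j, (∀ c, X c i = X c j) → i = j) (h1 : ∑ i, a i = 0) :
    ∃ e i j, X e i ≠ X e j := by
  classical
  by_contra hcon
  push Not at hcon
  have hsub : ∀ i j : ι, i = j := fun i j => hsep i j fun c => hcon c i j
  let i0 : ι := Classical.arbitrary ι
  rw [Finset.sum_eq_single i0 (fun i _ hi => absurd (hsub i i0) hi)
    (fun h => absurd (Finset.mem_univ _) h)] at h1
  exact ha i0 h1

/-- if all moments vanish, at most five points lie on a line -/
theorem collinear (ha : ∀ i, a i ≠ 0) (h1 : ∑ i, a i = 0) (hX : ∀ c, ∑ i, a i * X c i = 0)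
    (hM : ∀ c d, mom a X c d = 0) (hcard : Fintype.card ι ≤ 5)
    (e : ℕ) (i j : ι) (hij : X e i ≠ X e j) (d : ℕ) :
    ∃ α β : ℂ, ∀ l, X d l = α + β * X e l := by
  classical
  by_contra hcon
  push Not at hcon
  let g : Fin 3 → ι → ℂ := ![fun _ => 1, X e, X d]
  have hg : LinearIndependent ℂ g := by
    rw [Fintype.linearIndependent_iff]
    intro c hc
    have hc' : ∀ l, c 0 + c 1 * X e l + c 2 * X d l = 0 := by
      intro l
      have := congrFun hc l
      simpa [Fin.sum_univ_three, g] using this
    have h2 : c 2 = 0 := by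
      by_contra h2
      obtain ⟨l, hl⟩ := hcon (-c 0 / c 2) (-c 1 / c 2)
      apply hl
      have := hc' l
      field_simp
      linear_combination this
    have h1' : c 1 = 0 := by
      have h3 : c 1 * (X e i - X e j) = 0 := by
        linear_combination hc' i - hc' j - (X d i - X d j) * h2
      exact (mul_eq_zero.mp h3).resolve_right (sub_ne_zero.mpr hij)
    have h0 : c 0 = 0 := by
      have := hc' i
      rw [h1', h2] at this
      simpa using this
    intro p
    fin_cases p
    · exact h0
    · exact h1'
    · exact h2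
  have := card_add_card_le a ha g g hg hg (by
    have hM' : ∀ c d, ∑ i, a i * X c i * X d i = 0 := hM
    intro p q
    fin_cases p <;> fin_cases q <;> simp [g, h1, hX, hM'])
  simp at this
  omega

/-- two points -/
theorem two_points [Nonempty ι] (ha : ∀ i, a i ≠ 0)
    (hsep : ∀ i j, (∀ c, X c i = X c j) → i = j) (hcard : Fintype.card ι ≤ 2)
    (h1 : ∑ i, a i = 0) (hX : ∀ c, ∑ i, a i * X c i = 0) : False := by
  classical
  obtain ⟨e, i, j, hij⟩ := exists_nonconst a X ha hsep h1
  have hh : LinearIndependent ℂ (fun (_ : Unit) (_ : ι) => (1 : ℂ)) := by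
    rw [Fintype.linearIndependent_iff]
    intro c hc u
    have := congrFun hc (Classical.arbitrary ι)
    simpa using this
  have := card_add_card_le a ha _ _ (pair_indep X e i j hij) hh (by
    rintro (_ | _) _
    · simpa using h1
    · simpa using hX e)
  simp at this
  omega

/-- three points -/
theorem three_points [Nonempty ι] (ha : ∀ i, a i ≠ 0)
    (hsep : ∀ i j, (∀ c, X c i = X c j) → i = j) (hcard : Fintype.card ι ≤ 3)
    (h1 : ∑ i, a i = 0) (hX : ∀ c, ∑ i, a i * X c i = 0)
    (hX2 : ∀ c, ∑ i, a i * X c i ^ 2 = 0) : False := by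
  classical
  obtain ⟨e, i, j, hij⟩ := exists_nonconst a X ha hsep h1
  have := card_add_card_le a ha _ _ (pair_indep X e i j hij) (pair_indep X e i j hij) (by
    rintro (_ | _) (_ | _)
    · simpa using h1
    · simpa using hX e
    · simpa using hX e
    · have := hX2 e
      simp only [if_true]
      rw [← this]
      exact Finset.sum_congr rfl fun i _ => by ring)
  simp at this
  omega

/-- moments of a constant coordinate -/
theorem sum_pow_const (h1 : ∑ i, a i = 0) (e : ℕ) (he : ∀ i j, X e i = X e j) (p : ℕ) :
    ∑ i, a i * X e i ^ p = 0 := by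
  classical
  rcases isEmpty_or_nonempty ι with h | h
  · simp
  · let i0 : ι := Classical.arbitrary ι
    have : ∀ i, a i * X e i ^ p = a i * X e i0 ^ p := fun i => by rw [he i i0]
    simp only [this]
    rw [← Finset.sum_mul, h1, zero_mul]

/-- the top antidiagonal -/
theorem exists_top (n : ℕ) (hn : ∀ c, n ≤ c → ∀ i, X c i = 0)
    (hM : ¬ ∀ c d, mom a X c d = 0) :
    ∃ m, (∃ c d, c + d = m ∧ mom a X c d ≠ 0) ∧ ∀ c d, m < c + d → mom a X c d = 0 := by
  classical
  have hbig : ∀ c d, 2 * n < c + d → mom a X c d = 0 := by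
    intro c d hcd
    unfold mom
    rcases le_total c d with h | h
    · apply Finset.sum_eq_zero
      intro i _
      rw [hn d (by omega), mul_zero]
    · apply Finset.sum_eq_zero
      intro i _
      rw [hn c (by omega)]; ring
  push Not at hM
  obtain ⟨c, d, hcd⟩ := hM
  let P : ℕ → Prop := fun m => ∃ c d, c + d = m ∧ mom a X c d ≠ 0
  have hle : c + d ≤ 2 * n := by
    by_contra h
    exact hcd (hbig c d (by omega))
  refine ⟨Nat.findGreatest P (2 * n), Nat.findGreatest_spec (P := P) hle ⟨c, d, rfl, hcd⟩, ?_⟩
  intro c' d' h'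
  by_contra hne
  rcases le_or_gt (c' + d') (2 * n) with h | h
  · exact Nat.findGreatest_is_greatest h' h ⟨c', d', rfl, hne⟩
  · exact hne (hbig c' d' h)

omit [Fintype ι] in
theorem injective_of_collinear (hsep : ∀ i j, (∀ c, X c i = X c j) → i = j) (e : ℕ)
    (hcol : ∀ d, ∃ α β : ℂ, ∀ l, X d l = α + β * X e l) : Function.Injective (X e) := by
  intro i j hij
  apply hsep
  intro d
  obtain ⟨α, β, h⟩ := hcol d
  rw [h i, h j, hij]

/-- four points -/
theorem four_points [Nonempty ι] (n : ℕ) (hn : ∀ c, n ≤ c → ∀ i, X c i = 0) (ha : ∀ i, a i ≠ 0)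
    (hsep : ∀ i j, (∀ c, X c i = X c j) → i = j) (hcard : Fintype.card ι ≤ 4)
    (h1 : ∑ i, a i = 0) (hX : ∀ c, ∑ i, a i * X c i = 0)
    (hA : ∑ i, a i * X 0 i ^ 3 = 0)
    (hC : ∀ m, ∑ i, a i * X (m + 1) i ^ 3 + ∑ p ∈ Finset.HasAntidiagonal.antidiagonal m, mom a X p.1 p.2 = 0) :
    False := by
  classical
  by_cases hM : ∀ c d, mom a X c d = 0
  · obtain ⟨e, i, j, hij⟩ := exists_nonconst a X ha hsep h1
    have hcol := collinear a X ha h1 hX hM (by omega) e i j hij
    have hinj := injective_of_collinear X hsep e hcol
    have h3 : ∀ c, ∑ i, a i * X c i ^ 3 = 0 := by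
      intro c
      rcases c with _ | m
      · exact hA
      · have := hC m
        have hz : ∑ p ∈ Finset.HasAntidiagonal.antidiagonal m, mom a X p.1 p.2 = 0 :=
          Finset.sum_eq_zero (fun p _ => hM p.1 p.2)
        rwa [hz, add_zero] at this
    have := vandermonde a (X e) hinj 4 hcard (by
      intro p hp
      interval_cases p
      · simpa using h1
      · simpa using hX e
      · rw [← hM e e]; exact Finset.sum_congr rfl fun i _ => by ring
      · exact h3 e)
    exact ha (Classical.arbitrary ι) (this _)
  · obtain ⟨m, ⟨c0, d0, hcd, hne⟩, htop⟩ := exists_top a X n hn hM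
    let T : Finset ℕ := (Finset.range (m + 1)).filter fun c => mom a X c (m - c) ≠ 0
    have hTmem : ∀ c, c ∈ T ↔ c ≤ m ∧ mom a X c (m - c) ≠ 0 := by
      intro c; simp [T]
    have hT : ∀ c ∈ T, c ≤ m ∧ mom a X c (m - c) ≠ 0 := fun c hc => (hTmem c).mp hc
    have hc0 : c0 ∈ T := by
      rw [hTmem]
      refine ⟨by omega, ?_⟩
      have : m - c0 = d0 := by omega
      rwa [this]
    have hTcard : 1 ≤ T.card := Finset.card_pos.mpr ⟨c0, hc0⟩
    have hTle := card_T_le a X ha h1 hX m T hT htop
    have hrow : ∀ d, mom a X (m + 1) d = 0 := fun d => htop _ _ (by omega)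
    have hconst := const_of_row a X ha h1 hX m T hT htop (by omega) (m + 1) hrow
    have hz := sum_pow_const a X h1 (m + 1) hconst 3
    have hs := hC m
    rw [hz, zero_add, Finset.Nat.sum_antidiagonal_eq_sum_range_succ_mk] at hs
    simp only at hs
    have hs' : ∑ c ∈ T, mom a X c (m - c) = 0 := by
      rw [← hs]
      exact Finset.sum_filter_ne_zero _
    have hsymm : ∀ c ∈ T, m - c ∈ T := by
      intro c hc
      rw [hTmem] at hc ⊢
      refine ⟨by omega, ?_⟩
      have : m - (m - c) = c := by omega
      rw [this, mom_comm]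
      exact hc.2
    by_cases hself : m - c0 = c0
    · have hTeq : T = {c0} := by
        apply Finset.eq_singleton_iff_unique_mem.mpr
        refine ⟨hc0, fun d hd => ?_⟩
        by_contra hdc
        have hd' := hsymm d hd
        have hdm := (hT d hd).1
        have hsub : ({c0, d, m - d} : Finset ℕ) ⊆ T := by
          intro x hx
          simp only [Finset.mem_insert, Finset.mem_singleton] at hx
          rcases hx with rfl | rfl | rfl <;> assumption
        have hcard3 : ({c0, d, m - d} : Finset ℕ).card = 3 := by
          rw [Finset.card_eq_three]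
          exact ⟨c0, d, m - d, by omega, by omega, by omega, rfl⟩
        have := Finset.card_le_card hsub
        omega
      rw [hTeq, Finset.sum_singleton] at hs'
      exact (hT c0 hc0).2 hs'
    · have hsub : ({c0, m - c0} : Finset ℕ) ⊆ T := by
        intro x hx
        simp only [Finset.mem_insert, Finset.mem_singleton] at hx
        rcases hx with rfl | rfl
        · exact hc0
        · exact hsymm _ hc0
      have hcard2 : ({c0, m - c0} : Finset ℕ).card = 2 := Finset.card_pair (Ne.symm hself)
      have hTeq : ({c0, m - c0} : Finset ℕ) = T := by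
        apply Finset.eq_of_subset_of_card_le hsub
        omega
      rw [← hTeq, Finset.sum_pair (Ne.symm hself)] at hs'
      have hc0m := (hT c0 hc0).1
      have hback : m - (m - c0) = c0 := by omega
      rw [hback, mom_comm a X (m - c0) c0] at hs'
      have : mom a X c0 (m - c0) = 0 := by linear_combination hs' / 2
      exact (hT c0 hc0).2 this

/-- five points -/
theorem five_points [Nonempty ι] (n : ℕ) (hn : ∀ c, n ≤ c → ∀ i, X c i = 0) (ha : ∀ i, a i ≠ 0)
    (hsep : ∀ i j, (∀ c, X c i = X c j) → i = j) (hcard : Fintype.card ι ≤ 5)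
    (h1 : ∑ i, a i = 0) (hX : ∀ c, ∑ i, a i * X c i = 0)
    (hX2 : ∀ c, mom a X c c = 0)
    (hA : ∑ i, a i * X 0 i ^ 4 = 0)
    (hB : ∑ i, a i * X 1 i ^ 4 + ∑ i, a i * X 0 i ^ 3 = 0)
    (hC : ∀ m, ∑ i, a i * X (m + 2) i ^ 4 + ∑ i, a i * X (m + 1) i ^ 3
      + ∑ p ∈ (Finset.HasAntidiagonal.antidiagonal m).filter (fun p => p.1 < p.2), mom a X p.1 p.2 = 0) :
    False := by
  classical
  by_cases hM : ∀ c d, mom a X c d = 0
  · obtain ⟨e0, i0, j0, hij0⟩ := exists_nonconst a X ha hsep h1
    -- the largest nonconstant coordinate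
    let P : ℕ → Prop := fun e => ∃ i j, X e i ≠ X e j
    have hPn : ∀ c, n ≤ c → ¬ P c := by
      rintro c hc ⟨i, j, hij⟩
      exact hij (by rw [hn c hc, hn c hc])
    have he0 : e0 ≤ n := by
      by_contra h
      exact hPn e0 (by omega) ⟨i0, j0, hij0⟩
    set e := Nat.findGreatest P n with he
    have hPe : P e := Nat.findGreatest_spec (P := P) he0 ⟨i0, j0, hij0⟩
    have hgr : ∀ c, e < c → ∀ i j, X c i = X c j := by
      intro c hc i j
      by_contra hij
      rcases le_or_gt c n with h | h
      · exact Nat.findGreatest_is_greatest hc h ⟨i, j, hij⟩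
      · exact hPn c (by omega) ⟨i, j, hij⟩
    obtain ⟨i, j, hij⟩ := hPe
    have hcol := collinear a X ha h1 hX hM hcard e i j hij
    have hinj := injective_of_collinear X hsep e hcol
    -- consecutive relations
    have hcons : ∀ c, ∑ i, a i * X (c + 1) i ^ 4 + ∑ i, a i * X c i ^ 3 = 0 := by
      intro c
      rcases c with _ | m
      · exact hB
      · have := hC m
        have hz : ∑ p ∈ (Finset.HasAntidiagonal.antidiagonal m).filter (fun p => p.1 < p.2),
            mom a X p.1 p.2 = 0 :=
          Finset.sum_eq_zero (fun p _ => hM p.1 p.2)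
        rwa [hz, add_zero] at this
    have h3 : ∑ i, a i * X e i ^ 3 = 0 := by
      have := hcons e
      rwa [sum_pow_const a X h1 (e + 1) (hgr (e + 1) (by omega)) 4, zero_add] at this
    have hp1 : ∑ i, a i * X e i = 0 := hX e
    have hp2 : ∑ i, a i * X e i ^ 2 = 0 := by
      rw [← hM e e]; exact Finset.sum_congr rfl fun i _ => by ring
    have h3' : ∀ d, ∑ i, a i * X d i ^ 3 = 0 := by
      intro d
      obtain ⟨α, β, h⟩ := hcol d
      have : ∑ i, a i * X d i ^ 3 = α ^ 3 * ∑ i, a i + 3 * α ^ 2 * β * ∑ i, a i * X e i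
          + 3 * α * β ^ 2 * ∑ i, a i * X e i ^ 2 + β ^ 3 * ∑ i, a i * X e i ^ 3 := by
        simp only [Finset.mul_sum]
        rw [← Finset.sum_add_distrib, ← Finset.sum_add_distrib, ← Finset.sum_add_distrib]
        apply Finset.sum_congr rfl
        intro i _
        rw [h i]; ring
      rw [this, h1, hp1, hp2, h3]; ring
    have h4 : ∑ i, a i * X e i ^ 4 = 0 := by
      rcases Nat.eq_zero_or_pos e with h0 | h0
      · rw [h0]; exact hA
      · have := hcons (e - 1)
        rw [show e - 1 + 1 = e by omega, h3' (e - 1), add_zero] at this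
        exact this
    have := vandermonde a (X e) hinj 5 hcard (by
      intro p hp
      interval_cases p
      · simpa using h1
      · simpa using hp1
      · exact hp2
      · exact h3
      · exact h4)
    exact ha (Classical.arbitrary ι) (this _)
  · obtain ⟨m, ⟨c0, d0, hcd, hne⟩, htop⟩ := exists_top a X n hn hM
    let T : Finset ℕ := (Finset.range (m + 1)).filter fun c => mom a X c (m - c) ≠ 0
    have hTmem : ∀ c, c ∈ T ↔ c ≤ m ∧ mom a X c (m - c) ≠ 0 := by
      intro c; simp [T]
    have hT : ∀ c ∈ T, c ≤ m ∧ mom a X c (m - c) ≠ 0 := fun c hc => (hTmem c).mp hc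
    have hc0 : c0 ∈ T := by
      rw [hTmem]
      refine ⟨by omega, ?_⟩
      have : m - c0 = d0 := by omega
      rwa [this]
    have hsymm : ∀ c ∈ T, m - c ∈ T := by
      intro c hc
      rw [hTmem] at hc ⊢
      refine ⟨by omega, ?_⟩
      have : m - (m - c) = c := by omega
      rw [this, mom_comm]
      exact hc.2
    have hnoself : ∀ c ∈ T, m - c ≠ c := by
      intro c hc h
      have := (hT c hc).2
      rw [h] at this
      exact this (hX2 c)
    have hTle := card_T_le a X ha h1 hX m T hT htop
    -- choose the smaller element of the pair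
    obtain ⟨c, hc, hlt⟩ : ∃ c ∈ T, c < m - c := by
      have := hnoself c0 hc0
      have := (hT c0 hc0).1
      rcases lt_or_ge c0 (m - c0) with h | h
      · exact ⟨c0, hc0, h⟩
      · exact ⟨m - c0, hsymm c0 hc0, by omega⟩
    have hcm := (hT c hc).1
    have hsub : ({c, m - c} : Finset ℕ) ⊆ T := by
      intro x hx
      simp only [Finset.mem_insert, Finset.mem_singleton] at hx
      rcases hx with rfl | rfl
      · exact hc
      · exact hsymm _ hc
    have hcard2 : ({c, m - c} : Finset ℕ).card = 2 := Finset.card_pair (by omega)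
    have h2T := Finset.card_le_card hsub
    have hTonly : ∀ d ∈ T, d = c ∨ d = m - c := by
      intro d hd
      by_contra hcon
      push Not at hcon
      have hd' := hsymm d hd
      have hdn := hnoself d hd
      have hdm := (hT d hd).1
      have hsub4 : ({c, m - c, d, m - d} : Finset ℕ) ⊆ T := by
        intro x hx
        simp only [Finset.mem_insert, Finset.mem_singleton] at hx
        rcases hx with rfl | rfl | rfl | rfl
        · exact hc
        · exact hsymm _ hc
        · exact hd
        · exact hd'
      have hcard4 : ({c, m - c, d, m - d} : Finset ℕ).card = 4 := by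
        rw [Finset.card_insert_of_notMem, Finset.card_insert_of_notMem,
          Finset.card_insert_of_notMem, Finset.card_singleton]
        · simp; omega
        · simp; omega
        · simp; omega
      have := Finset.card_le_card hsub4
      omega
    have hrow1 : ∀ d, mom a X (m + 1) d = 0 := fun d => htop _ _ (by omega)
    have hrow2 : ∀ d, mom a X (m + 2) d = 0 := fun d => htop _ _ (by omega)
    have hconst1 := const_of_row a X ha h1 hX m T hT htop (by omega) (m + 1) hrow1
    have hconst2 := const_of_row a X ha h1 hX m T hT htop (by omega) (m + 2) hrow2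
    have hs := hC m
    rw [sum_pow_const a X h1 (m + 1) hconst1 3, sum_pow_const a X h1 (m + 2) hconst2 4,
      zero_add, zero_add, Finset.sum_eq_single (c, m - c)] at hs
    · exact (hT c hc).2 hs
    · rintro ⟨p, q⟩ hp hpc
      simp only [Finset.mem_filter, Finset.HasAntidiagonal.mem_antidiagonal] at hp
      by_contra hne'
      have hpT : p ∈ T := by
        rw [hTmem]
        refine ⟨by omega, ?_⟩
        have : m - p = q := by omega
        rwa [this]
      rcases hTonly p hpT with h | h
      · apply hpc
        have : q = m - c := by omega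
        rw [h, this]
      · omega
    · intro h
      exfalso
      apply h
      simp only [Finset.mem_filter, Finset.HasAntidiagonal.mem_antidiagonal]
      exact ⟨by omega, hlt⟩

end

end Pool.Agent.KReg
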